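import Pool.Agent.Lib_helper81.Dir.Suff
import Pool.Agent.Lib_helper81.Dir.Nec2

/-!
Characterisation of the zero sets of the Dirichlet space.
-/

namespace Pool.Agent.Results.MP_7179d6_an.DirichletZeroSets

open Pool.Agent.Lib_helper81.Dir

/-- **Zero sets of the Dirichlet space.** For `0 < κ ≤ 1 / 10 ^ 4`, a family of points of the
unit disc is a zero set of the Dirichlet space if and only if it satisfies the criterion. -/
theorem result {ι : Type*} (κ : ℝ) (hκ : 0 < κ) (hκ1 : κ ≤ 1 / 10 ^ 4) (z : ι → ℂ)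
    (hz : ∀ i, ‖z i‖ < 1) : IsZeroSet z ↔ Criterion κ z :=
  ⟨criterion_of_isZeroSet z hz hκ hκ1,
    isZeroSet_of_criterion hκ (hκ1.trans (by norm_num)) z hz⟩

end Pool.Agent.Results.MP_7179d6_an.DirichletZeroSets
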